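import Mathlib

set_option autoImplicit false

/-! Quasi-identities of associative algebras, the varieties `M(n)` and `S(n)`. Algebras are
associative and need not have a unit. -/

namespace Run7.h162.EqPb

universe u v

/-- The product of a nonempty list (and `0` for the empty list). -/
def nprod {A : Type v} [Mul A] [Zero A] : List A → A
  | [] => 0
  | [a] => a
  | a :: b :: l => a * nprod (b :: l)

/-- A noncommutative monomial without coefficient: the index of the first variable and the list of
the indices of the other variables. (So the empty monomial does not occur.) -/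
abbrev Word := ℕ × List ℕ

/-- A noncommutative polynomial without constant term: a list of monomials with coefficients. -/
abbrev NCPoly (K : Type v) := List (K × Word)

/-- The value of a monomial if the value of the variable `x i` is `x i`. -/
def wordVal {A : Type v} [Mul A] [Zero A] (x : ℕ → A) (w : Word) : A := nprod ((w.1 :: w.2).map x)

/-- The value of a polynomial. -/
def polyVal {K : Type u} {A : Type v} [NonUnitalRing A] [SMul K A] (x : ℕ → A) (p : NCPoly K) : A :=
  (p.map fun t => t.1 • wordVal x t.2).sum

/-- A rational number as a finite object: `(a, b, c)` stands for `(a - b) / (c + 1)`. -/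
abbrev Coef := ℕ × ℕ × ℕ

/-- The rational number `(a - b) / (c + 1)` in a field. -/
def coefVal (F : Type u) [Field F] (t : Coef) : F := ((t.1 : F) - (t.2.1 : F)) / ((t.2.2 : F) + 1)

/-- Polynomials with rational coefficients. -/
abbrev QPoly := NCPoly Coef

/-- A polynomial with rational coefficients as a polynomial over the field `F`. -/
def toF (F : Type u) [Field F] (p : QPoly) : NCPoly F := p.map fun t => (coefVal F t.1, t.2)

/-- A quasi-identity `u₁ = 0 ∧ … ∧ uₖ = 0 → u = 0`. -/
abbrev QuasiIdentity := List QPoly × QPoly

/-- The quasi-identity holds in the algebra `A`. -/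
def Holds (F : Type u) [Field F] (A : Type v) [NonUnitalRing A] [Module F A] (Q : QuasiIdentity) :
    Prop :=
  ∀ x : ℕ → A, (∀ p ∈ Q.1, polyVal x (toF F p) = 0) → polyVal x (toF F Q.2) = 0

/-- `A` belongs to the variety `M(n)`: it satisfies all polynomial identities of the algebra of
`n × n` matrices over `F`. -/
def InM (F : Type u) [Field F] (n : ℕ) (A : Type v) [NonUnitalRing A] [Module F A] : Prop :=
  ∀ p : NCPoly F, (∀ x : ℕ → Matrix (Fin n) (Fin n) F, polyVal x p = 0) → ∀ x : ℕ → A, polyVal x p = 0

/-- `A` belongs to the variety `S(n)`: it satisfies the standard identity of degree `n`. -/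
def InS (n : ℕ) (A : Type v) [NonUnitalRing A] : Prop :=
  ∀ x : Fin n → A,
    ∑ σ : Equiv.Perm (Fin n), (Equiv.Perm.sign σ : ℤ) • nprod (List.ofFn fun i => x (σ i)) = 0

/-- The quasi-identity holds in all algebras of the variety `M(n)`. -/
def HoldsInM (F : Type u) [Field F] (n : ℕ) (Q : QuasiIdentity) : Prop :=
  ∀ (A : Type u) [NonUnitalRing A] [Module F A] [IsScalarTower F A A] [SMulCommClass F A A],
    InM F n A → Holds F A Q

/-- The quasi-identity holds in all algebras of the variety `S(n)`. -/
def HoldsInS (F : Type u) [Field F] (n : ℕ) (Q : QuasiIdentity) : Prop :=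
  ∀ (A : Type u) [NonUnitalRing A] [Module F A] [IsScalarTower F A A] [SMulCommClass F A A],
    InS n A → Holds F A Q

/-! Basic facts. -/

theorem nprod_cons {A : Type v} [Mul A] [Zero A] (a : A) {l : List A} (h : l ≠ []) :
    nprod (a :: l) = a * nprod l := by
  cases l with
  | nil => exact absurd rfl h
  | cons b l => rfl

theorem nprod_map {A B : Type v} [NonUnitalRing A] [Ring B] (f : A →ₙ* B) : ∀ {l : List A}, l ≠ [] →
    f (nprod l) = (l.map f).prod
  | [], h => absurd rfl h
  | [a], _ => by simp [nprod]
  | a :: b :: l, _ => by
    rw [nprod_cons a (List.cons_ne_nil b l), map_mul, nprod_map f (List.cons_ne_nil b l)]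
    simp

theorem nprod_eq {B : Type v} [Ring B] {l : List B} (h : l ≠ []) : nprod l = l.prod := by
  have := nprod_map (MulHom.id B) h
  simpa using this

/-- The difference of two monomials. -/
def binom (s t : List ℕ) : QPoly :=
  [((1, 0, 0), (s.headI, s.tail)), ((0, 1, 0), (t.headI, t.tail))]

theorem head_tail {l : List ℕ} (h : l ≠ []) : l.headI :: l.tail = l := by
  cases l with
  | nil => exact absurd rfl h
  | cons a l => rfl

theorem polyVal_binom (F : Type u) [Field F] {A : Type v} [NonUnitalRing A] [Module F A]
    (x : ℕ → A) {s t : List ℕ} (hs : s ≠ []) (ht : t ≠ []) :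
    polyVal x (toF F (binom s t)) = nprod (s.map x) - nprod (t.map x) := by
  unfold polyVal toF binom
  rw [List.map_map, List.map_cons, List.map_cons, List.map_nil, List.sum_cons, List.sum_cons,
    List.sum_nil, add_zero]
  simp only [Function.comp_apply, wordVal, head_tail hs, head_tail ht, coefVal]
  norm_num
  rw [sub_eq_add_neg]

end Run7.h162.EqPb
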