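import Mathlib
import Pool.Agent.Lib.helper21.While

set_option autoImplicit false

/-! One-register machines whose instructions multiply the register by a fraction if the
denominator divides it; one of them has an undecidable halting problem. -/

namespace Run7.h162.Machine

open Function Pool.Agent.Lib.helper21.While

/-- A machine with states `Q` and one register `x`: in a state `q` different from the halting state
`H`, if `B q` divides `x` then `x` becomes `s q * (x / B q)` and the new state is `T0 q`; otherwise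
`x` is not changed and the new state is `T1 q`. -/
structure FM (Q : Type) where
  B : Q → ℕ
  s : Q → ℕ
  T0 : Q → Q
  T1 : Q → Q
  H : Q
  hB : ∀ q, 0 < B q

variable {Q : Type}

/-- The machine stops after exactly `n` steps. -/
inductive FM.HaltsIn (M : FM Q) : ℕ → Q → ℕ → Prop
  | done (x : ℕ) : M.HaltsIn 0 M.H x
  | div {n : ℕ} {q : Q} {x : ℕ} : q ≠ M.H → M.B q ∣ x →
      M.HaltsIn n (M.T0 q) (M.s q * (x / M.B q)) → M.HaltsIn (n + 1) q x
  | ndiv {n : ℕ} {q : Q} {x : ℕ} : q ≠ M.H → ¬ M.B q ∣ x →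
      M.HaltsIn n (M.T1 q) x → M.HaltsIn (n + 1) q x

def FM.Halts (M : FM Q) (q : Q) (x : ℕ) : Prop := ∃ n, M.HaltsIn n q x

theorem FM.halts_H (M : FM Q) (x : ℕ) : M.Halts M.H x := ⟨0, .done x⟩

theorem FM.halts_div (M : FM Q) {q : Q} {x : ℕ} (h : q ≠ M.H) (hd : M.B q ∣ x) :
    M.Halts q x ↔ M.Halts (M.T0 q) (M.s q * (x / M.B q)) := by
  constructor
  · rintro ⟨n, hn⟩
    cases hn with
    | done => exact absurd rfl h
    | div _ _ h3 => exact ⟨_, h3⟩
    | ndiv _ h2 _ => exact absurd hd h2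
  · rintro ⟨n, hn⟩
    exact ⟨_, .div h hd hn⟩

theorem FM.halts_ndiv (M : FM Q) {q : Q} {x : ℕ} (h : q ≠ M.H) (hd : ¬ M.B q ∣ x) :
    M.Halts q x ↔ M.Halts (M.T1 q) x := by
  constructor
  · rintro ⟨n, hn⟩
    cases hn with
    | done => exact absurd rfl h
    | div _ h2 _ => exact absurd h2 hd
    | ndiv _ _ h3 => exact ⟨_, h3⟩
  · rintro ⟨n, hn⟩
    exact ⟨_, .ndiv h hd hn⟩

/-- the `r`-th prime -/
noncomputable def pr (r : ℕ) : ℕ := Nat.nth Nat.Prime r

theorem pr_prime (r : ℕ) : (pr r).Prime := Nat.prime_nth_prime r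

theorem pr_inj : Injective pr := Nat.nth_injective Nat.infinite_setOfPred_prime

/-- the Gödel number of the first `K` registers -/
noncomputable def enc (K : ℕ) (s : St) : ℕ := ∏ r ∈ Finset.range K, pr r ^ s r

theorem enc_inc (K : ℕ) (s : St) (r : ℕ) (hr : r < K) :
    enc K (update s r (s r + 1)) = pr r * enc K s := by
  unfold enc
  rw [← Finset.mul_prod_erase _ _ (Finset.mem_range.2 hr),
    ← Finset.mul_prod_erase (Finset.range K) (fun r => pr r ^ s r) (Finset.mem_range.2 hr)]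
  rw [update_self, pow_succ, ← mul_assoc, mul_comm (pr r)]
  congr 1
  refine Finset.prod_congr rfl fun i hi => ?_
  rw [update_of_ne (Finset.ne_of_mem_erase hi)]

theorem enc_pos (K : ℕ) (s : St) : 0 < enc K s :=
  Finset.prod_pos fun r _ => pow_pos (pr_prime r).pos _

theorem dvd_enc (K : ℕ) (s : St) (r : ℕ) (hr : r < K) : pr r ∣ enc K s ↔ s r ≠ 0 := by
  constructor
  · intro h h0
    unfold enc at h
    rw [(pr_prime r).prime.dvd_finsetProd_iff] at h
    obtain ⟨i, hi, hd⟩ := h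
    have h1 := (pr_prime r).dvd_of_dvd_pow hd
    have h2 : pr r = pr i := (Nat.prime_dvd_prime_iff_eq (pr_prime r) (pr_prime i)).1 h1
    have h3 := pr_inj h2
    subst h3
    rw [h0, pow_zero] at hd
    exact (pr_prime r).one_lt.ne' (Nat.dvd_one.1 hd)
  · intro h
    exact (dvd_pow_self _ h).trans (Finset.dvd_prod_of_mem _ (Finset.mem_range.2 hr))

theorem enc_dec (K : ℕ) (s : St) (r : ℕ) (hr : r < K) (h : s r ≠ 0) :
    enc K (update s r (s r - 1)) = enc K s / pr r := by
  have h1 := enc_inc K (update s r (s r - 1)) r hr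
  rw [update_self, update_idem, Nat.sub_add_cancel (Nat.pos_of_ne_zero h), update_eq_self] at h1
  rw [h1, Nat.mul_div_cancel_left _ (pr_prime r).pos]

theorem enc_dec0 (K : ℕ) (s : St) (r : ℕ) (h : s r = 0) :
    enc K (update s r (s r - 1)) = enc K s := by
  have : update s r (s r - 1) = s := by
    rw [update_eq_self_iff, h]
  rw [this]

/-- all registers of the program are less than `K` -/
def Bd (K : ℕ) : Prog → Prop
  | .inc r => r < K
  | .dec r => r < K
  | .seq p q => Bd K p ∧ Bd K q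
  | .loop r p => r < K ∧ Bd K p

theorem Bd.mono {K L : ℕ} (h : K ≤ L) : ∀ {p : Prog}, Bd K p → Bd L p
  | .inc _, hp => lt_of_lt_of_le hp h
  | .dec _, hp => lt_of_lt_of_le hp h
  | .seq _ _, hp => ⟨Bd.mono h hp.1, Bd.mono h hp.2⟩
  | .loop _ _, hp => ⟨lt_of_lt_of_le hp.1 h, Bd.mono h hp.2⟩

theorem exists_bd (p : Prog) : ∃ K, Bd K p := by
  induction p with
  | inc r => exact ⟨r + 1, Nat.lt_succ_self r⟩
  | dec r => exact ⟨r + 1, Nat.lt_succ_self r⟩
  | seq p q hp hq =>
    obtain ⟨K, hK⟩ := hp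
    obtain ⟨L, hL⟩ := hq
    exact ⟨max K L, hK.mono (le_max_left _ _), hL.mono (le_max_right _ _)⟩
  | loop r p hp =>
    obtain ⟨K, hK⟩ := hp
    exact ⟨max (r + 1) K, lt_of_lt_of_le (Nat.lt_succ_self r) (le_max_left _ _),
      hK.mono (le_max_right _ _)⟩

/-- the machine with infinitely many states which executes lists of programs -/
noncomputable def M0 : FM (List Prog) where
  B
    | .dec r :: _ => pr r
    | .loop r _ :: _ => pr r
    | _ => 1
  s
    | .inc r :: _ => pr r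
    | .loop r _ :: _ => pr r
    | _ => 1
  T0
    | [] => []
    | .inc _ :: k => k
    | .dec _ :: k => k
    | .seq p q :: k => p :: q :: k
    | .loop r p :: k => p :: .loop r p :: k
  T1
    | [] => []
    | .inc _ :: k => k
    | .dec _ :: k => k
    | .seq p q :: k => p :: q :: k
    | .loop _ _ :: k => k
  H := []
  hB := by
    rintro (_ | ⟨_ | _ | _ | _, _⟩) <;> simp [(pr_prime _).pos]

theorem halts_inc (K : ℕ) (r : ℕ) (k : List Prog) (s : St) (hr : r < K) (n : ℕ) :
    M0.HaltsIn n (.inc r :: k) (enc K s) ↔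
      ∃ m, n = m + 1 ∧ M0.HaltsIn m k (enc K (update s r (s r + 1))) := by
  rw [enc_inc K s r hr]
  constructor
  · intro h
    cases h with
    | div _ _ h3 => exact ⟨_, rfl, by simpa [M0] using h3⟩
    | ndiv _ h2 _ => exact absurd (by simp [M0]) h2
  · rintro ⟨m, rfl, h⟩
    exact .div (by simp [M0]) (by simp [M0]) (by simpa [M0] using h)

theorem halts_dec (K : ℕ) (r : ℕ) (k : List Prog) (s : St) (hr : r < K) (n : ℕ) :
    M0.HaltsIn n (.dec r :: k) (enc K s) ↔
      ∃ m, n = m + 1 ∧ M0.HaltsIn m k (enc K (update s r (s r - 1))) := by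
  by_cases h0 : s r = 0
  · rw [enc_dec0 K s r h0]
    have hd : ¬ M0.B (.dec r :: k) ∣ enc K s := fun h => (dvd_enc K s r hr).1 h h0
    constructor
    · intro h
      cases h with
      | div _ h2 _ => exact absurd h2 hd
      | ndiv _ _ h3 => exact ⟨_, rfl, h3⟩
    · rintro ⟨m, rfl, h⟩
      exact .ndiv (by simp [M0]) hd h
  · rw [enc_dec K s r hr h0]
    have hd : M0.B (.dec r :: k) ∣ enc K s := (dvd_enc K s r hr).2 h0
    constructor
    · intro h
      cases h with
      | div _ _ h3 => exact ⟨_, rfl, by simpa [M0] using h3⟩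
      | ndiv _ h2 _ => exact absurd hd h2
    · rintro ⟨m, rfl, h⟩
      exact .div (by simp [M0]) hd (by simpa [M0] using h)

theorem halts_seq (p q : Prog) (k : List Prog) (x n : ℕ) :
    M0.HaltsIn n (.seq p q :: k) x ↔ ∃ m, n = m + 1 ∧ M0.HaltsIn m (p :: q :: k) x := by
  constructor
  · intro h
    cases h with
    | div _ _ h3 => exact ⟨_, rfl, by simpa [M0] using h3⟩
    | ndiv _ h2 _ => exact absurd (by simp [M0]) h2
  · rintro ⟨m, rfl, h⟩
    exact .div (by simp [M0]) (by simp [M0]) (by simpa [M0] using h)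

theorem halts_loop0 (K : ℕ) (r : ℕ) (p : Prog) (k : List Prog) (s : St) (hr : r < K) (h0 : s r = 0)
    (n : ℕ) : M0.HaltsIn n (.loop r p :: k) (enc K s) ↔
      ∃ m, n = m + 1 ∧ M0.HaltsIn m k (enc K s) := by
  have hd : ¬ M0.B (.loop r p :: k) ∣ enc K s := fun h => (dvd_enc K s r hr).1 h h0
  constructor
  · intro h
    cases h with
    | div _ h2 _ => exact absurd h2 hd
    | ndiv _ _ h3 => exact ⟨_, rfl, h3⟩
  · rintro ⟨m, rfl, h⟩
    exact .ndiv (by simp [M0]) hd h

theorem halts_loop1 (K : ℕ) (r : ℕ) (p : Prog) (k : List Prog) (s : St) (hr : r < K) (h0 : s r ≠ 0)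
    (n : ℕ) : M0.HaltsIn n (.loop r p :: k) (enc K s) ↔
      ∃ m, n = m + 1 ∧ M0.HaltsIn m (p :: .loop r p :: k) (enc K s) := by
  have hd : M0.B (.loop r p :: k) ∣ enc K s := (dvd_enc K s r hr).2 h0
  have e : M0.s (.loop r p :: k) * (enc K s / M0.B (.loop r p :: k)) = enc K s :=
    Nat.mul_div_cancel' hd
  constructor
  · intro h
    cases h with
    | div _ _ h3 => exact ⟨_, rfl, by rwa [e] at h3⟩
    | ndiv _ h2 _ => exact absurd hd h2
  · rintro ⟨m, rfl, h⟩
    exact .div (by simp [M0]) hd (by rw [e]; exact h)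

theorem run_of_halts (K : ℕ) (n : ℕ) : ∀ (p : Prog) (k : List Prog) (s : St), Bd K p →
    M0.HaltsIn n (p :: k) (enc K s) →
    ∃ (t : St) (m : ℕ), m < n ∧ Run p s t ∧ M0.HaltsIn m k (enc K t) := by
  induction n using Nat.strong_induction_on with
  | _ n ih =>
    intro p k s hb h
    cases p with
    | inc r =>
      obtain ⟨m, hm, h'⟩ := (halts_inc K r k s hb n).1 h
      exact ⟨_, m, by omega, .inc r s, h'⟩
    | dec r =>
      obtain ⟨m, hm, h'⟩ := (halts_dec K r k s hb n).1 h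
      exact ⟨_, m, by omega, .dec r s, h'⟩
    | seq p q =>
      obtain ⟨m, hm, h'⟩ := (halts_seq p q k _ n).1 h
      obtain ⟨t, m1, hm1, hr, h''⟩ := ih m (by omega) p _ s hb.1 h'
      obtain ⟨u, m2, hm2, hr2, h3⟩ := ih m1 (by omega) q _ t hb.2 h''
      exact ⟨u, m2, by omega, .seq hr hr2, h3⟩
    | loop r p =>
      by_cases h0 : s r = 0
      · obtain ⟨m, hm, h'⟩ := (halts_loop0 K r p k s hb.1 h0 n).1 h
        exact ⟨s, m, by omega, .stop p h0, h'⟩
      · obtain ⟨m, hm, h'⟩ := (halts_loop1 K r p k s hb.1 h0 n).1 h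
        obtain ⟨t, m1, hm1, hr, h''⟩ := ih m (by omega) p _ s hb.2 h'
        obtain ⟨u, m2, hm2, hr2, h3⟩ := ih m1 (by omega) (.loop r p) _ t hb h''
        exact ⟨u, m2, by omega, .go h0 hr hr2, h3⟩

theorem halts_of_run (K : ℕ) {p : Prog} {s t : St} (h : Run p s t) : Bd K p →
    ∀ k : List Prog, M0.Halts k (enc K t) → M0.Halts (p :: k) (enc K s) := by
  induction h with
  | inc r s =>
    rintro hb k ⟨m, h⟩
    exact ⟨_, (halts_inc K r k s hb _).2 ⟨m, rfl, h⟩⟩
  | dec r s =>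
    rintro hb k ⟨m, h⟩
    exact ⟨_, (halts_dec K r k s hb _).2 ⟨m, rfl, h⟩⟩
  | seq _ _ ih1 ih2 =>
    intro hb k h
    obtain ⟨m, h⟩ := ih1 hb.1 _ (ih2 hb.2 k h)
    exact ⟨_, (halts_seq _ _ k _ _).2 ⟨m, rfl, h⟩⟩
  | stop p h0 =>
    rintro hb k ⟨m, h⟩
    exact ⟨_, (halts_loop0 K _ p k _ hb.1 h0 _).2 ⟨m, rfl, h⟩⟩
  | go h0 _ _ ih1 ih2 =>
    intro hb k h
    obtain ⟨m, h⟩ := ih1 hb.2 _ (ih2 hb k h)
    exact ⟨_, (halts_loop1 K _ _ k _ hb.1 h0 _).2 ⟨m, rfl, h⟩⟩

theorem halts_iff (K : ℕ) (p : Prog) (hb : Bd K p) (s : St) :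
    M0.Halts [p] (enc K s) ↔ ∃ t, Run p s t := by
  constructor
  · rintro ⟨n, h⟩
    obtain ⟨t, _, _, h, _⟩ := run_of_halts K n p [] s hb h
    exact ⟨t, h⟩
  · rintro ⟨t, h⟩
    exact halts_of_run K h hb [] (M0.halts_H _)

/-- the states that can be reached from `p :: k` before `k` -/
def cl : Prog → List Prog → List (List Prog)
  | .inc r, k => [.inc r :: k]
  | .dec r, k => [.dec r :: k]
  | .seq p q, k => (.seq p q :: k) :: (cl p (q :: k) ++ cl q k)
  | .loop r p, k => (.loop r p :: k) :: cl p (.loop r p :: k)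

theorem self_mem_cl (p : Prog) (k : List Prog) : p :: k ∈ cl p k := by
  cases p <;> simp [cl]

theorem cl_closed (p : Prog) : ∀ (k : List Prog), ∀ x ∈ cl p k,
    (M0.T0 x ∈ cl p k ∨ M0.T0 x = k) ∧ (M0.T1 x ∈ cl p k ∨ M0.T1 x = k) := by
  induction p with
  | inc r =>
    intro k x hx
    simp only [cl, List.mem_singleton] at hx
    subst hx
    exact ⟨Or.inr rfl, Or.inr rfl⟩
  | dec r =>
    intro k x hx
    simp only [cl, List.mem_singleton] at hx
    subst hx
    exact ⟨Or.inr rfl, Or.inr rfl⟩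
  | seq p q hp hq =>
    intro k x hx
    have h1 := self_mem_cl p (q :: k)
    have h2 := self_mem_cl q k
    simp only [cl, List.mem_cons, List.mem_append] at hx ⊢
    rcases hx with rfl | hx | hx
    · exact ⟨Or.inl (Or.inr (Or.inl h1)), Or.inl (Or.inr (Or.inl h1))⟩
    · obtain ⟨h3, h4⟩ := hp _ x hx
      refine ⟨?_, ?_⟩
      · rcases h3 with h3 | h3
        · exact Or.inl (Or.inr (Or.inl h3))
        · rw [h3]; exact Or.inl (Or.inr (Or.inr h2))
      · rcases h4 with h3 | h3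
        · exact Or.inl (Or.inr (Or.inl h3))
        · rw [h3]; exact Or.inl (Or.inr (Or.inr h2))
    · obtain ⟨h3, h4⟩ := hq _ x hx
      refine ⟨?_, ?_⟩
      · rcases h3 with h3 | h3
        · exact Or.inl (Or.inr (Or.inr h3))
        · exact Or.inr h3
      · rcases h4 with h3 | h3
        · exact Or.inl (Or.inr (Or.inr h3))
        · exact Or.inr h3
  | loop r p hp =>
    intro k x hx
    have h1 := self_mem_cl p (.loop r p :: k)
    simp only [cl, List.mem_cons] at hx ⊢
    rcases hx with rfl | hx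
    · exact ⟨Or.inl (Or.inr h1), Or.inr rfl⟩
    · obtain ⟨h3, h4⟩ := hp _ x hx
      refine ⟨?_, ?_⟩
      · rcases h3 with h3 | h3
        · exact Or.inl (Or.inr h3)
        · exact Or.inl (Or.inl h3)
      · rcases h4 with h3 | h3
        · exact Or.inl (Or.inr h3)
        · exact Or.inl (Or.inl h3)

/-- restriction of a machine to a closed set of states -/
def FM.res (M : FM Q) (S : Set Q) (hH : M.H ∈ S) (h0 : ∀ q ∈ S, M.T0 q ∈ S)
    (h1 : ∀ q ∈ S, M.T1 q ∈ S) : FM S where
  B q := M.B q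
  s q := M.s q
  T0 q := ⟨M.T0 q, h0 q q.2⟩
  T1 q := ⟨M.T1 q, h1 q q.2⟩
  H := ⟨M.H, hH⟩
  hB q := M.hB q

theorem FM.res_halts (M : FM Q) (S : Set Q) (hH : M.H ∈ S) (h0 : ∀ q ∈ S, M.T0 q ∈ S)
    (h1 : ∀ q ∈ S, M.T1 q ∈ S) (n : ℕ) : ∀ (q : S) (x : ℕ),
    (M.res S hH h0 h1).HaltsIn n q x ↔ M.HaltsIn n q x := by
  induction n with
  | zero =>
    intro q x
    constructor
    · intro h
      cases h
      exact .done x
    · intro h
      obtain ⟨q, hq⟩ := q
      cases h
      exact FM.HaltsIn.done x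
  | succ n ih =>
    intro q x
    have hne : q ≠ (M.res S hH h0 h1).H ↔ (q : Q) ≠ M.H := by
      rw [Ne, Ne, Subtype.ext_iff]
      rfl
    constructor
    · intro h
      cases h with
      | div h1' h2 h3 => exact .div (hne.1 h1') h2 ((ih _ _).1 h3)
      | ndiv h1' h2 h3 => exact .ndiv (hne.1 h1') h2 ((ih _ _).1 h3)
    · intro h
      cases h with
      | div h1' h2 h3 => exact .div (hne.2 h1') h2 ((ih ⟨_, h0 q q.2⟩ _).2 h3)
      | ndiv h1' h2 h3 => exact .ndiv (hne.2 h1') h2 ((ih ⟨_, h1 q q.2⟩ _).2 h3)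

theorem enc_init (K n : ℕ) (hK : 0 < K) : enc K (init n) = 2 ^ n := by
  unfold enc
  rw [Finset.prod_eq_single_of_mem 0 (Finset.mem_range.2 hK)]
  · have : pr 0 = 2 := Nat.nth_prime_zero_eq_two
    rw [this]
    rfl
  · intro r _ hr
    have : init n r = 0 := by simp [init, hr]
    rw [this, pow_zero]

/-- **A finite machine with undecidable halting problem.** -/
theorem exists_machine : ∃ (Q : Type) (_ : Finite Q) (M : FM Q) (q0 : Q),
    ¬ ComputablePred (fun n : ℕ => M.Halts q0 (2 ^ n)) := by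
  obtain ⟨P, hP⟩ := exists_undec
  obtain ⟨K, hK⟩ := exists_bd P
  have hK1 : Bd (K + 1) P := hK.mono (Nat.le_succ K)
  let S : Set (List Prog) := {x | x ∈ cl P [] ∨ x = []}
  have hfin : S.Finite := by
    have : S = ((cl P [] : List (List Prog)).toFinset : Set (List Prog)) ∪ {[]} := by
      ext x
      simp [S, or_comm]
    rw [this]
    exact (Finset.finite_toSet _).union (Set.finite_singleton _)
  have h0 : ∀ q ∈ S, M0.T0 q ∈ S := by
    rintro q (hq | rfl)
    · exact (cl_closed P [] q hq).1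
    · exact Or.inr rfl
  have h1 : ∀ q ∈ S, M0.T1 q ∈ S := by
    rintro q (hq | rfl)
    · exact (cl_closed P [] q hq).2
    · exact Or.inr rfl
  have hH : M0.H ∈ S := Or.inr rfl
  refine ⟨S, hfin, M0.res S hH h0 h1, ⟨[P], Or.inl (self_mem_cl P [])⟩, ?_⟩
  intro hc
  apply hP
  refine hc.of_eq fun n => ?_
  rw [← halts_iff (K + 1) P hK1 (init n), enc_init (K + 1) n (Nat.succ_pos K)]
  unfold FM.Halts
  simp only [FM.res_halts]

end Run7.h162.Machine
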