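import Mathlib
import Pool.Agent.Run7.h162.Machine

set_option autoImplicit false

/-! The relations that simulate a machine. -/

namespace Run7.h162.Words

open Run7.h162.Machine

variable {Q : Type}

/-- letters for the states -/
inductive Mid (Q : Type) : Type
  | st : Q → Mid Q
  | a : Q → Mid Q
  | r : Q → Mid Q

/-- the letters -/
inductive Gen (Q : Type) : Type
  | e : Gen Q
  | y : Gen Q
  | z : Gen Q
  | f : Gen Q
  | mid : Mid Q → Gen Q

open Gen Mid

/-- the relations -/
inductive Rel (M : FM Q) : List (Gen Q) → List (Gen Q) → Prop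
  | h : Rel M [y, mid (st M.H)] [mid (st M.H)]
  | r1 (q : Q) : q ≠ M.H → Rel M (List.replicate (M.B q) y ++ [mid (st q)]) [mid (st q), z]
  | r2 (q : Q) : q ≠ M.H → Rel M [e, mid (st q)] [e, mid (a q)]
  | r3 (q : Q) : q ≠ M.H → Rel M [mid (a q), z] (List.replicate (M.s q) y ++ [mid (a q)])
  | r4 (q : Q) : q ≠ M.H → Rel M [mid (a q), f] [mid (st (M.T0 q)), f]
  | r5 (q : Q) (k : Fin (M.B q)) : q ≠ M.H → (k : ℕ) ≠ 0 →
      Rel M (e :: (List.replicate k y ++ [mid (st q)])) (e :: (List.replicate k y ++ [mid (r q)]))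
  | r6 (q : Q) : q ≠ M.H → Rel M [mid (r q), z] (List.replicate (M.B q) y ++ [mid (r q)])
  | r7 (q : Q) : q ≠ M.H → Rel M [mid (r q), f] [mid (st (M.T1 q)), f]

theorem Rel.ne_nil {M : FM Q} {s t : List (Gen Q)} (h : Rel M s t) : s ≠ [] ∧ t ≠ [] := by
  cases h <;> simp

theorem finite_rel [Finite Q] (M : FM Q) :
    {p : List (Gen Q) × List (Gen Q) | Rel M p.1 p.2}.Finite := by
  have h : {p : List (Gen Q) × List (Gen Q) | Rel M p.1 p.2} ⊆
      {([y, mid (st M.H)], [mid (st M.H)])} ∪
      (Set.range fun q : Q => (List.replicate (M.B q) y ++ [mid (st q)], [mid (st q), z])) ∪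
      (Set.range fun q : Q => ([e, mid (st q)], [e, mid (a q)])) ∪
      (Set.range fun q : Q => ([mid (a q), z], List.replicate (M.s q) y ++ [mid (a q)])) ∪
      (Set.range fun q : Q => ([mid (a q), f], [mid (st (M.T0 q)), f])) ∪
      (Set.range fun q : (Σ q : Q, Fin (M.B q)) =>
        (e :: (List.replicate q.2 y ++ [mid (st q.1)]), e :: (List.replicate q.2 y ++ [mid (r q.1)]))) ∪
      (Set.range fun q : Q => ([mid (r q), z], List.replicate (M.B q) y ++ [mid (r q)])) ∪
      (Set.range fun q : Q => ([mid (r q), f], [mid (st (M.T1 q)), f])) := by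
    rintro ⟨s, t⟩ hp
    simp only [Set.mem_ofPred_eq] at hp
    simp only [Set.mem_union]
    cases hp with
    | h => simp
    | r1 q => exact Or.inl (Or.inl (Or.inl (Or.inl (Or.inl (Or.inl (Or.inr ⟨q, rfl⟩))))))
    | r2 q => exact Or.inl (Or.inl (Or.inl (Or.inl (Or.inl (Or.inr ⟨q, rfl⟩)))))
    | r3 q => exact Or.inl (Or.inl (Or.inl (Or.inl (Or.inr ⟨q, rfl⟩))))
    | r4 q => exact Or.inl (Or.inl (Or.inl (Or.inr ⟨q, rfl⟩)))
    | r5 q k => exact Or.inl (Or.inl (Or.inr ⟨⟨q, k⟩, rfl⟩))
    | r6 q => exact Or.inl (Or.inr ⟨q, rfl⟩)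
    | r7 q => exact Or.inr ⟨q, rfl⟩
  refine Set.Finite.subset ?_ h
  exact (((((((Set.finite_singleton _).union (Set.finite_range _)).union
    (Set.finite_range _)).union (Set.finite_range _)).union (Set.finite_range _)).union
    (Set.finite_range _)).union (Set.finite_range _)).union (Set.finite_range _)

/-- In every monoid in which the relations hold the computation can be carried out. -/
theorem forward {N : Type*} [Monoid N] (M : FM Q) (φ : Gen Q → N)
    (hφ : ∀ s t, Rel M s t → (s.map φ).prod = (t.map φ).prod) {n : ℕ} {q : Q} {x : ℕ}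
    (hq : M.HaltsIn n q x) :
    φ e * φ y ^ x * φ (mid (st q)) * φ f = φ e * φ (mid (st M.H)) * φ f := by
  induction hq with
  | done x =>
    have h := hφ _ _ (Rel.h (M := M))
    simp only [List.map_cons, List.map_nil, List.prod_cons, List.prod_nil, mul_one] at h
    have h2 : ∀ x : ℕ, φ y ^ x * φ (mid (st M.H)) = φ (mid (st M.H)) := by
      intro x
      induction x with
      | zero => simp
      | succ x ih => rw [pow_succ, mul_assoc, h, ih]
    rw [mul_assoc (φ e), h2]
  | @div n q x hq hd _ ih =>
    obtain ⟨k, rfl⟩ := hd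
    rw [Nat.mul_div_cancel_left _ (M.hB q)] at ih
    have h1 := hφ _ _ (Rel.r1 q hq)
    have h2 := hφ _ _ (Rel.r2 q hq)
    have h3 := hφ _ _ (Rel.r3 q hq)
    have h4 := hφ _ _ (Rel.r4 q hq)
    simp only [List.map_append, List.map_replicate, List.prod_append, List.prod_replicate,
      List.map_cons, List.map_nil, List.prod_cons, List.prod_nil, mul_one] at h1 h2 h3 h4
    have h5 : ∀ k : ℕ, φ y ^ (M.B q * k) * φ (mid (st q)) = φ (mid (st q)) * φ z ^ k := by
      intro k
      induction k with
      | zero => simp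
      | succ k ih => rw [Nat.mul_succ, pow_add, mul_assoc, h1, ← mul_assoc, ih, mul_assoc, ← pow_succ]
    have h6 : ∀ k : ℕ, φ (mid (a q)) * φ z ^ k = φ y ^ (M.s q * k) * φ (mid (a q)) := by
      intro k
      induction k with
      | zero => simp
      | succ k ih =>
        rw [pow_succ', ← mul_assoc, h3, mul_assoc, ih, ← mul_assoc, ← pow_add, Nat.mul_succ,
          add_comm]
    calc φ e * φ y ^ (M.B q * k) * φ (mid (st q)) * φ f
        = φ e * φ (mid (st q)) * φ z ^ k * φ f := by
          rw [mul_assoc (φ e), h5]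
          simp only [mul_assoc]
      _ = φ e * φ (mid (a q)) * φ z ^ k * φ f := by rw [h2]
      _ = φ e * φ y ^ (M.s q * k) * (φ (mid (a q)) * φ f) := by
          rw [mul_assoc (φ e), h6]
          simp only [mul_assoc]
      _ = _ := by rw [h4, ← ih]; simp only [mul_assoc]
  | @ndiv n q x hq hd _ ih =>
    have hB := M.hB q
    have h1 := hφ _ _ (Rel.r1 q hq)
    have h2 := hφ _ _ (Rel.r5 q ⟨x % M.B q, Nat.mod_lt _ hB⟩ hq
      (fun h => hd (Nat.dvd_of_mod_eq_zero h)))
    have h3 := hφ _ _ (Rel.r6 q hq)
    have h4 := hφ _ _ (Rel.r7 q hq)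
    simp only [List.map_append, List.map_replicate, List.prod_append, List.prod_replicate,
      List.map_cons, List.map_nil, List.prod_cons, List.prod_nil, mul_one] at h1 h2 h3 h4
    have h5 : ∀ k : ℕ, φ y ^ (M.B q * k) * φ (mid (st q)) = φ (mid (st q)) * φ z ^ k := by
      intro k
      induction k with
      | zero => simp
      | succ k ih => rw [Nat.mul_succ, pow_add, mul_assoc, h1, ← mul_assoc, ih, mul_assoc, ← pow_succ]
    have h6 : ∀ k : ℕ, φ (mid (r q)) * φ z ^ k = φ y ^ (M.B q * k) * φ (mid (r q)) := by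
      intro k
      induction k with
      | zero => simp
      | succ k ih =>
        rw [pow_succ', ← mul_assoc, h3, mul_assoc, ih, ← mul_assoc, ← pow_add, Nat.mul_succ,
          add_comm]
    have hx : φ y ^ x = φ y ^ (x % M.B q) * φ y ^ (M.B q * (x / M.B q)) := by
      rw [← pow_add, Nat.mod_add_div]
    calc φ e * φ y ^ x * φ (mid (st q)) * φ f
        = φ e * (φ y ^ (x % M.B q) * φ (mid (st q))) * φ z ^ (x / M.B q) * φ f := by
          rw [hx, mul_assoc (φ e), mul_assoc (φ y ^ (x % M.B q)), h5]
          simp only [mul_assoc]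
      _ = φ e * (φ y ^ (x % M.B q) * φ (mid (r q))) * φ z ^ (x / M.B q) * φ f := by rw [h2]
      _ = φ e * φ y ^ (x % M.B q) * (φ (mid (r q)) * φ z ^ (x / M.B q)) * φ f := by
          simp only [mul_assoc]
      _ = φ e * φ y ^ x * (φ (mid (r q)) * φ f) := by
          rw [h6, hx]
          simp only [mul_assoc]
      _ = _ := by rw [h4, ← ih]; simp only [mul_assoc]

/-- the possible values of the part of a word that has been read -/
inductive Cfg (Q : Type) : Type
  | start : Cfg Q
  | L (m : ℕ) : Cfg Q
  | R (m : ℕ) (t : Mid Q) (n : ℕ) : Cfg Q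
  | acc (m : ℕ) (t : Mid Q) (n : ℕ) : Cfg Q
  | dead : Cfg Q

def step : Cfg Q → Gen Q → Cfg Q
  | .start, .e => .L 0
  | .L m, .y => .L (m + 1)
  | .L m, .mid t => .R m t 0
  | .R m t n, .z => .R m t (n + 1)
  | .R m t n, .f => .acc m t n
  | _, _ => .dead

/-- reading a word -/
def run (c : Cfg Q) (w : List (Gen Q)) : Cfg Q := w.foldl step c

theorem run_append (c : Cfg Q) (w w' : List (Gen Q)) : run c (w ++ w') = run (run c w) w' :=
  List.foldl_append

theorem run_cons (c : Cfg Q) (g : Gen Q) (w : List (Gen Q)) : run c (g :: w) = run (step c g) w := rfl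

theorem run_nil (c : Cfg Q) : run c [] = c := rfl

/-- the word `e y^m t z^n f` encodes a configuration from which the machine stops -/
def Good (M : FM Q) (m : ℕ) (t : Mid Q) (n : ℕ) : Prop :=
  match t with
  | .st q => M.Halts q (m + M.B q * n)
  | .a q => M.Halts (M.T0 q) (m + M.s q * n)
  | .r q => M.Halts (M.T1 q) (m + M.B q * n)

def val (M : FM Q) : Cfg Q → Prop
  | .acc m t n => Good M m t n
  | _ => False

/-- configurations which are equivalent for all continuations -/
def Eqv (M : FM Q) (c c' : Cfg Q) : Prop := ∀ w, val M (run c w) ↔ val M (run c' w)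

theorem Eqv.rfl' {M : FM Q} {c : Cfg Q} : Eqv M c c := fun _ => Iff.rfl

theorem eqv_acc (M : FM Q) {m m' n n' : ℕ} {t t' : Mid Q} (h : Good M m t n ↔ Good M m' t' n') :
    Eqv M (.acc m t n) (.acc m' t' n') := by
  intro w
  cases w with
  | nil => exact h
  | cons g w =>
    have : ∀ m t n, step (Cfg.acc m t n : Cfg Q) g = .dead := by
      intro m t n; cases g <;> rfl
    rw [run_cons, run_cons, this, this]

theorem eqv_R (M : FM Q) {m m' : ℕ} {t t' : Mid Q} : ∀ {n n' : ℕ},
    (∀ k, Good M m t (n + k) ↔ Good M m' t' (n' + k)) → Eqv M (.R m t n) (.R m' t' n') := by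
  intro n n' h w
  induction w generalizing n n' with
  | nil => exact Iff.rfl
  | cons g w ih =>
    rw [run_cons, run_cons]
    cases g with
    | z =>
      refine ih (n := n + 1) (n' := n' + 1) fun k => ?_
      have := h (1 + k)
      rwa [← add_assoc, ← add_assoc] at this
    | f => exact eqv_acc M (h 0) w
    | e => exact Iff.rfl
    | y => exact Iff.rfl
    | mid t => exact Iff.rfl

theorem run_L_y (m k : ℕ) : run (.L m : Cfg Q) (List.replicate k .y) = .L (m + k) := by
  induction k generalizing m with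
  | zero => rfl
  | succ k ih =>
    rw [List.replicate_succ, run_cons]
    show run (.L (m + 1)) _ = _
    rw [ih, add_assoc, add_comm 1 k]

theorem run_dead (w : List (Gen Q)) : run (.dead : Cfg Q) w = .dead := by
  induction w with
  | nil => rfl
  | cons g w ih => rw [run_cons]; exact ih

/-- reading `y^k t` from a configuration that is not `L m` -/
theorem run_y_mid (c : Cfg Q) (hc : ∀ m, c ≠ .L m) (k : ℕ) (t : Mid Q) :
    run c (List.replicate k .y ++ [.mid t]) = .dead := by
  cases k with
  | zero => cases c <;> first | rfl | exact absurd rfl (hc _)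
  | succ k =>
    rw [List.replicate_succ, List.cons_append, run_cons]
    have : step c .y = .dead := by
      cases c <;> first | rfl | exact absurd rfl (hc _)
    rw [this, run_dead]

theorem run_L_y_mid (m k : ℕ) (t : Mid Q) :
    run (.L m : Cfg Q) (List.replicate k .y ++ [.mid t]) = .R (m + k) t 0 := by
  rw [run_append, run_L_y]
  rfl

theorem Eqv.of_eq {M : FM Q} {c c' : Cfg Q} (h : c = c') : Eqv M c c' := h ▸ Eqv.rfl'

/-- **The relations are respected.** -/
theorem eqv_of_rel (M : FM Q) {s t : List (Gen Q)} (h : Rel M s t) (c : Cfg Q) :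
    Eqv M (run c s) (run c t) := by
  cases h with
  | h =>
    cases c with
    | L m =>
      refine eqv_R M fun k => ?_
      exact ⟨fun _ => M.halts_H _, fun _ => M.halts_H _⟩
    | start => exact Eqv.rfl'
    | R => exact Eqv.rfl'
    | acc => exact Eqv.rfl'
    | dead => exact Eqv.rfl'
  | r1 q hq =>
    by_cases hc : ∃ m, c = .L m
    · obtain ⟨m, rfl⟩ := hc
      rw [run_L_y_mid]
      refine eqv_R M (n := 0) (n' := 1) fun k => ?_
      have : m + M.B q + M.B q * (0 + k) = m + M.B q * (1 + k) := by ring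
      show M.Halts q _ ↔ M.Halts q _
      rw [this]
    · push Not at hc
      rw [run_y_mid c hc]
      refine Eqv.of_eq ?_
      rw [run_cons]
      have : step c (.mid (.st q)) = .dead := by
        cases c <;> first | rfl | exact absurd rfl (hc _)
      rw [this, run_dead]
  | r2 q hq =>
    cases c with
    | start =>
      refine eqv_R M fun k => ?_
      show M.Halts q _ ↔ M.Halts (M.T0 q) _
      rw [M.halts_div hq (by simp), zero_add, zero_add, Nat.mul_div_cancel_left _ (M.hB q),
        zero_add]
    | L m => exact Eqv.rfl'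
    | R => exact Eqv.rfl'
    | acc => exact Eqv.rfl'
    | dead => exact Eqv.rfl'
  | r3 q hq =>
    by_cases hc : ∃ m, c = .L m
    · obtain ⟨m, rfl⟩ := hc
      rw [run_L_y_mid]
      refine eqv_R M (n := 1) (n' := 0) fun k => ?_
      have : m + M.s q * (1 + k) = m + M.s q + M.s q * (0 + k) := by ring
      show M.Halts (M.T0 q) _ ↔ M.Halts (M.T0 q) _
      rw [this]
    · push Not at hc
      rw [run_y_mid c hc]
      refine Eqv.of_eq ?_
      rw [run_cons]
      have : step c (.mid (.a q)) = .dead := by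
        cases c <;> first | rfl | exact absurd rfl (hc _)
      rw [this, run_dead]
  | r4 q hq =>
    cases c with
    | L m => exact eqv_acc M Iff.rfl
    | start => exact Eqv.rfl'
    | R => exact Eqv.rfl'
    | acc => exact Eqv.rfl'
    | dead => exact Eqv.rfl'
  | r5 q k hq hk =>
    rw [run_cons, run_cons]
    have h0 : ∀ c : Cfg Q, c ≠ .start → step c .e = .dead := by
      intro c hc
      cases c <;> first | rfl | exact absurd rfl hc
    by_cases hc : c = .start
    · subst hc
      show Eqv M (run (.L 0) _) (run (.L 0) _)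
      rw [run_L_y_mid, run_L_y_mid]
      refine eqv_R M fun j => ?_
      show M.Halts q _ ↔ M.Halts (M.T1 q) _
      refine M.halts_ndiv hq fun hd => ?_
      rw [zero_add, Nat.dvd_add_left (Dvd.intro _ rfl)] at hd
      exact hk (Nat.eq_zero_of_dvd_of_lt hd k.2)
    · rw [h0 c hc, run_dead, run_dead]
      exact Eqv.rfl'
  | r6 q hq =>
    by_cases hc : ∃ m, c = .L m
    · obtain ⟨m, rfl⟩ := hc
      rw [run_L_y_mid]
      refine eqv_R M (n := 1) (n' := 0) fun k => ?_
      have : m + M.B q * (1 + k) = m + M.B q + M.B q * (0 + k) := by ring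
      show M.Halts (M.T1 q) _ ↔ M.Halts (M.T1 q) _
      rw [this]
    · push Not at hc
      rw [run_y_mid c hc]
      refine Eqv.of_eq ?_
      rw [run_cons]
      have : step c (.mid (.r q)) = .dead := by
        cases c <;> first | rfl | exact absurd rfl (hc _)
      rw [this, run_dead]
  | r7 q hq =>
    cases c with
    | L m => exact eqv_acc M Iff.rfl
    | start => exact Eqv.rfl'
    | R => exact Eqv.rfl'
    | acc => exact Eqv.rfl'
    | dead => exact Eqv.rfl'

end Run7.h162.Words
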