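import Mathlib
import Pool.Agent.Run7.h162.Words

set_option autoImplicit false

/-! Representation by matrices over a commutative algebra, and the test algebra. -/

namespace Run7.h162.Rep

open Run7.h162.Machine Run7.h162.Words

universe u

variable (F : Type u) [Field F] (Q : Type)

/-- exponents: the numbers of `y`, of `z`, and the multiset of the middle letters -/
abbrev Ex (Q : Type) := ℕ × ℕ × Multiset (Mid Q)

/-- commutative coefficients -/
abbrev Co := DualNumber (AddMonoidAlgebra F (Ex Q))

variable {F Q}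

/-- a monomial -/
noncomputable def mono (m n : ℕ) (s : Multiset (Mid Q)) : Co F Q :=
  TrivSqZeroExt.inl (AddMonoidAlgebra.single (m, n, s) 1)

theorem mono_mul (m n : ℕ) (s : Multiset (Mid Q)) (m' n' : ℕ) (s' : Multiset (Mid Q)) :
    (mono m n s : Co F Q) * mono m' n' s' = mono (m + m') (n + n') (s + s') := by
  unfold mono
  rw [← TrivSqZeroExt.inl_mul, AddMonoidAlgebra.single_mul_single]
  simp

variable (M : FM Q)

open Classical in
/-- the functional on the coefficients -/
noncomputable def L0 : AddMonoidAlgebra F (Ex Q) →ₗ[F] F :=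
  (Finsupp.linearCombination F (fun t : Ex Q =>
    if ∃ g, t.2.2 = {g} ∧ Good M t.1 g t.2.1 then (1 : F) else 0)).comp
    (AddMonoidAlgebra.coeffLinearEquiv F).toLinearMap

noncomputable def Lf : Co F Q →ₗ[F] F :=
  (L0 M).comp ((TrivSqZeroExt.sndHom (AddMonoidAlgebra F (Ex Q))
    (AddMonoidAlgebra F (Ex Q))).restrictScalars F)

theorem Lf_one : Lf M (1 : Co F Q) = 0 := by
  simp [Lf]

open Classical in
theorem Lf_eps (m n : ℕ) (t : Mid Q) :
    Lf M (DualNumber.eps * mono m n {t} : Co F Q) = if Good M m t n then 1 else 0 := by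
  have h : (DualNumber.eps * mono m n {t} : Co F Q) =
      TrivSqZeroExt.inr (AddMonoidAlgebra.single (m, n, {t}) 1) := by
    unfold mono DualNumber.eps
    rw [TrivSqZeroExt.inr_mul_inl]
    congr 1
    simp
  rw [h]
  simp only [Lf, L0, LinearMap.comp_apply, LinearMap.restrictScalars_apply,
    TrivSqZeroExt.sndHom_apply, TrivSqZeroExt.snd_inr, LinearEquiv.coe_coe]
  show Finsupp.linearCombination F _ (Finsupp.single (m, n, {t}) 1) = _
  rw [Finsupp.linearCombination_single, one_smul]
  simp

section rep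

variable {ι : Type} [Fintype ι] [DecidableEq ι] (s0 s1 s2 s3 : ι)

/-- the matrices of the letters -/
noncomputable def letter : Gen Q → Matrix ι ι (Co F Q)
  | .e => Matrix.single s0 s1 DualNumber.eps
  | .y => Matrix.single s1 s1 (mono 1 0 0)
  | .mid t => Matrix.single s1 s2 (mono 0 0 {t})
  | .z => Matrix.single s2 s2 (mono 0 1 0)
  | .f => Matrix.single s2 s3 1

/-- the row vector of a configuration -/
noncomputable def rowOf : Cfg Q → ι → Co F Q
  | .start => Pi.single s0 1
  | .L m => Pi.single s1 (DualNumber.eps * mono m 0 0)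
  | .R m t n => Pi.single s2 (DualNumber.eps * mono m n {t})
  | .acc m t n => Pi.single s3 (DualNumber.eps * mono m n {t})
  | .dead => 0

theorem vecMul_aux {R : Type*} [CommRing R] (i j k : ι) (x y : R) :
    Matrix.vecMul (Pi.single i x) (Matrix.single j k y) = if i = j then Pi.single k (x * y) else 0 := by
  ext l
  rw [Matrix.single_vecMul]
  by_cases h : i = j
  · subst h
    by_cases h2 : k = l
    · subst h2
      simp
    · simp [Matrix.single_apply, h2, Ne.symm h2]
  · simp [Matrix.single_apply, Ne.symm h, h]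

variable {s0 s1 s2 s3}

theorem rowOf_step (h01 : s0 ≠ s1) (h02 : s0 ≠ s2) (h12 : s1 ≠ s2) (h31 : s3 ≠ s1) (h32 : s3 ≠ s2)
    (c : Cfg Q) (g : Gen Q) :
    (rowOf s0 s1 s2 s3 (step c g) : ι → Co F Q) =
      Matrix.vecMul (rowOf s0 s1 s2 s3 c) (letter s0 s1 s2 s3 g) := by
  have h0 : (mono 0 0 0 : Co F Q) = 1 := by
    unfold mono
    rfl
  have h30 : ∀ x : Co F Q, DualNumber.eps * x * DualNumber.eps = 0 := by
    intro x
    rw [mul_comm, ← mul_assoc, DualNumber.eps_mul_eps, zero_mul]
  cases c with
  | start =>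
    cases g <;> simp only [step, rowOf, letter, vecMul_aux, h01, h02, if_true, if_false, one_mul, h0,
      mul_one]
  | L m =>
    cases g <;> simp only [step, rowOf, letter, vecMul_aux, h01.symm, h12, if_true, if_false,
      mul_assoc, mono_mul, add_zero, zero_add]
  | R m t n =>
    cases g <;> simp only [step, rowOf, letter, vecMul_aux, h02.symm, h12.symm, if_true, if_false,
      mul_assoc, mono_mul, add_zero, zero_add, mul_one]
  | acc m t n =>
    cases g
    · simp only [step, rowOf, letter, vecMul_aux, h30]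
      split_ifs <;> simp
    all_goals simp only [step, rowOf, letter, vecMul_aux, h31, h32, if_false]
  | dead => cases g <;> simp [step, rowOf]

/-- the matrix of a word -/
noncomputable def wmat (s0 s1 s2 s3 : ι) (w : List (Gen Q)) : Matrix ι ι (Co F Q) :=
  (w.map (letter s0 s1 s2 s3)).prod

theorem rowOf_run (h01 : s0 ≠ s1) (h02 : s0 ≠ s2) (h12 : s1 ≠ s2) (h31 : s3 ≠ s1) (h32 : s3 ≠ s2)
    (w : List (Gen Q)) : ∀ (c : Cfg Q),
    (rowOf s0 s1 s2 s3 (run c w) : ι → Co F Q) =
      Matrix.vecMul (rowOf s0 s1 s2 s3 c) (wmat s0 s1 s2 s3 w) := by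
  induction w with
  | nil =>
    intro c
    simp [wmat, run_nil]
  | cons g w ih =>
    intro c
    rw [run_cons, ih, rowOf_step h01 h02 h12 h31 h32, Matrix.vecMul_vecMul]
    simp [wmat]

open Classical in
/-- **The functional on words.** -/
theorem Lf_wmat (h01 : s0 ≠ s1) (h02 : s0 ≠ s2) (h12 : s1 ≠ s2) (h31 : s3 ≠ s1) (h32 : s3 ≠ s2)
    (w : List (Gen Q)) :
    Lf M ((wmat s0 s1 s2 s3 w : Matrix ι ι (Co F Q)) s0 s3) =
      if val M (run .start w) then 1 else 0 := by
  have h := rowOf_run (F := F) h01 h02 h12 h31 h32 w .start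
  have h2 : (wmat s0 s1 s2 s3 w : Matrix ι ι (Co F Q)) s0 s3 = rowOf s0 s1 s2 s3 (run .start w) s3 := by
    rw [h]
    show _ = Matrix.vecMul (Pi.single s0 1) _ s3
    rw [Matrix.single_one_vecMul]
    rfl
  rw [h2]
  cases run Cfg.start w with
  | start =>
    by_cases h : s3 = s0
    · simp [rowOf, val, h, Lf_one]
    · simp [rowOf, val, h]
  | L m => simp [rowOf, val, h31]
  | R m t n => simp [rowOf, val, h32]
  | acc m t n =>
    simp only [rowOf, Pi.single_eq_same, val]
    exact Lf_eps M m n t
  | dead => simp [rowOf, val]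

end rep

end Run7.h162.Rep
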