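import Mathlib
import Pool.Agent.Run7.h162.Rep
import Pool.Agent.Run7.h162.Defs

set_option autoImplicit false

/-! The test algebra. -/

namespace Run7.h162.Test

open Run7.h162.Machine Run7.h162.Words Run7.h162.Rep Run7.h162.EqPb

universe u v w

/-! Homomorphisms and values of polynomials. -/

theorem nprod_hom {A : Type u} {B : Type v} [Mul A] [Zero A] [Mul B] [Zero B] (f : A → B)
    (h0 : f 0 = 0) (hm : ∀ a b, f (a * b) = f a * f b) : ∀ l : List A,
    f (nprod l) = nprod (l.map f)
  | [] => h0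
  | [a] => rfl
  | a :: b :: l => by
    have := nprod_hom f h0 hm (b :: l)
    simp only [List.map_cons] at this ⊢
    rw [nprod, hm, this, nprod]

theorem wordVal_hom {A : Type u} {B : Type v} [Mul A] [Zero A] [Mul B] [Zero B] (f : A → B)
    (h0 : f 0 = 0) (hm : ∀ a b, f (a * b) = f a * f b) (x : ℕ → A) (t : Word) :
    f (wordVal x t) = wordVal (fun i => f (x i)) t := by
  unfold wordVal
  rw [nprod_hom f h0 hm, List.map_map]
  rfl

theorem polyVal_hom {F : Type w} [Field F] {A : Type u} {B : Type v} [NonUnitalRing A]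
    [NonUnitalRing B] [Module F A] [Module F B] (f : A → B) (h0 : f 0 = 0)
    (ha : ∀ a b, f (a + b) = f a + f b) (hm : ∀ a b, f (a * b) = f a * f b)
    (hs : ∀ (c : F) a, f (c • a) = c • f a) (x : ℕ → A) (p : NCPoly F) :
    f (polyVal x p) = polyVal (fun i => f (x i)) p := by
  unfold polyVal
  induction p with
  | nil => simpa using h0
  | cons t p ih =>
    rw [List.map_cons, List.map_cons, List.sum_cons, List.sum_cons, ha, ih, hs,
      wordVal_hom f h0 hm]

/-- An identity of `M_n(F)` is an identity of `M_n(C)` for all commutative algebras `C`. -/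
theorem identity_matrix {F : Type u} [Field F] [Infinite F] (n : ℕ) (p : NCPoly F)
    (hp : ∀ x : ℕ → Matrix (Fin n) (Fin n) F, polyVal x p = 0) {C : Type v} [CommRing C]
    [Algebra F C] (x : ℕ → Matrix (Fin n) (Fin n) C) : polyVal x p = 0 := by
  let P := MvPolynomial (ℕ × Fin n × Fin n) F
  let X : ℕ → Matrix (Fin n) (Fin n) P := fun i => Matrix.of fun j k => MvPolynomial.X (i, j, k)
  have key2 : ∀ {D : Type u} [CommRing D] [Algebra F D] (φ : P →ₐ[F] D),
      (polyVal X p).map φ = polyVal (fun i => (X i).map φ) p := by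
    intro D _ _ φ
    exact polyVal_hom (F := F) (fun m : Matrix (Fin n) (Fin n) P => φ.mapMatrix m) (map_zero _)
      (map_add _) (map_mul _) (map_smul _) X p
  have key3 : ∀ {D : Type v} [CommRing D] [Algebra F D] (φ : P →ₐ[F] D),
      (polyVal X p).map φ = polyVal (fun i => (X i).map φ) p := by
    intro D _ _ φ
    exact polyVal_hom (F := F) (fun m : Matrix (Fin n) (Fin n) P => φ.mapMatrix m) (map_zero _)
      (map_add _) (map_mul _) (map_smul _) X p
  have hX : polyVal X p = 0 := by
    ext1 j k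
    refine MvPolynomial.funext fun a => ?_
    have h1 := hp fun i => Matrix.of fun j k => a (i, j, k)
    have h2 := key2 (MvPolynomial.aeval a : P →ₐ[F] F)
    have h3 : (fun i => (X i).map (MvPolynomial.aeval a : P →ₐ[F] F)) =
        fun i => Matrix.of fun j k => a (i, j, k) := by
      funext i
      ext j k
      simp [X]
    rw [h3, h1] at h2
    have h4 : MvPolynomial.aeval a (polyVal X p j k) = (0 : F) := congrFun (congrFun h2 j) k
    rw [Matrix.zero_apply, map_zero, ← h4]
    rfl
  have h2 := key3 (MvPolynomial.aeval (fun t : ℕ × Fin n × Fin n => x t.1 t.2.1 t.2.2) : P →ₐ[F] C)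
  rw [hX] at h2
  have h3 : (fun i => (X i).map (MvPolynomial.aeval
      (fun t : ℕ × Fin n × Fin n => x t.1 t.2.1 t.2.2) : P →ₐ[F] C)) = x := by
    funext i
    ext j k
    simp [X]
  rw [h3] at h2
  rw [← h2]
  ext j k
  simp

/-! The syntactic congruence of a functional. -/

section syn

variable {F : Type u} [Field F] {R : Type u} [Ring R] [Algebra F R]

def synCon (Φ : R →ₗ[F] F) : RingCon R where
  r a b := ∀ x y, Φ (x * a * y) = Φ (x * b * y)
  iseqv := ⟨fun _ _ _ => rfl, fun h x y => (h x y).symm, fun h1 h2 x y => (h1 x y).trans (h2 x y)⟩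
  add' {a b c d} h1 h2 x y := by
    simp only [mul_add, add_mul, map_add, h1 x y, h2 x y]
  mul' {a b c d} h1 h2 x y := by
    have h3 := h1 x (c * y)
    have h4 := h2 (x * b) y
    simp only [mul_assoc] at h3 h4 ⊢
    rw [h3, h4]

theorem mk_eq_iff (Φ : R →ₗ[F] F) (a b : R) :
    (synCon Φ).mk' a = (synCon Φ).mk' b ↔ ∀ x y, Φ (x * a * y) = Φ (x * b * y) :=
  (synCon Φ).eq

end syn

/-! The free algebra and its representation. -/

section free

variable {F : Type u} [Field F] {Q : Type}

/-- the free algebra -/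
abbrev Rg (F : Type u) [Field F] (Q : Type) := MonoidAlgebra F (FreeMonoid (Gen Q))

/-- a word as an element of the free algebra -/
noncomputable def wd (t : List (Gen Q)) : Rg F Q := MonoidAlgebra.single (FreeMonoid.ofList t) 1

theorem wd_append (s t : List (Gen Q)) : (wd (s ++ t) : Rg F Q) = wd s * wd t := by
  unfold wd
  rw [MonoidAlgebra.single_mul_single, mul_one]
  rfl

variable {ι : Type} [Fintype ι] [DecidableEq ι] (s0 s1 s2 s3 : ι)

noncomputable def rho : Rg F Q →ₐ[F] Matrix ι ι (Co F Q) :=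
  MonoidAlgebra.lift F _ _ (FreeMonoid.lift (letter s0 s1 s2 s3))

theorem rho_wd (t : List (Gen Q)) : (rho s0 s1 s2 s3 (wd t) : Matrix ι ι (Co F Q)) =
    wmat s0 s1 s2 s3 t := by
  unfold rho wd wmat
  rw [MonoidAlgebra.lift_single, one_smul, FreeMonoid.lift_apply]
  rfl

noncomputable def Phi (M : FM Q) : Rg F Q →ₗ[F] F :=
  (Lf M).comp ((Matrix.entryLinearMap F (Co F Q) s0 s3).comp (rho s0 s1 s2 s3).toLinearMap)

theorem Phi_apply (M : FM Q) (a : Rg F Q) :
    Phi s0 s1 s2 s3 M a = Lf M ((rho s0 s1 s2 s3 a : Matrix ι ι (Co F Q)) s0 s3) := rfl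

variable {s0 s1 s2 s3}

open Classical in
theorem Phi_wd (M : FM Q) (h01 : s0 ≠ s1) (h02 : s0 ≠ s2) (h12 : s1 ≠ s2) (h31 : s3 ≠ s1)
    (h32 : s3 ≠ s2) (t : List (Gen Q)) :
    (Phi s0 s1 s2 s3 M (wd t) : F) = if val M (run .start t) then 1 else 0 := by
  rw [Phi_apply, rho_wd]
  exact Lf_wmat M h01 h02 h12 h31 h32 t

theorem Phi_rel (M : FM Q) (h01 : s0 ≠ s1) (h02 : s0 ≠ s2) (h12 : s1 ≠ s2) (h31 : s3 ≠ s1)
    (h32 : s3 ≠ s2) {s t : List (Gen Q)} (h : Rel M s t) :
    (synCon (Phi s0 s1 s2 s3 M : Rg F Q →ₗ[F] F)).mk' (wd s) =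
      (synCon (Phi s0 s1 s2 s3 M : Rg F Q →ₗ[F] F)).mk' (wd t) := by
  classical
  rw [mk_eq_iff]
  intro x y
  induction x using MonoidAlgebra.induction_linear with
  | zero => simp
  | add x x' hx hx' => simp only [add_mul, map_add, hx, hx']
  | single g a =>
    induction y using MonoidAlgebra.induction_linear with
    | zero => simp
    | add y y' hy hy' => simp only [mul_add, map_add, hy, hy']
    | single g' b =>
      have h1 : (MonoidAlgebra.single g a : Rg F Q) = a • wd g.toList := by
        simp [wd]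
      have h2 : (MonoidAlgebra.single g' b : Rg F Q) = b • wd g'.toList := by
        simp [wd]
      rw [h1, h2]
      simp only [smul_mul_assoc, mul_smul_comm, map_smul]
      rw [← wd_append, ← wd_append, ← wd_append, ← wd_append, Phi_wd M h01 h02 h12 h31 h32,
        Phi_wd M h01 h02 h12 h31 h32, run_append, run_append, run_append, run_append]
      have := eqv_of_rel M h (run .start g.toList) g'.toList
      simp only [this]

/-- the test algebra distinguishes the word of a nonhalting configuration from `e H f` -/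
theorem halts_of_eq (M : FM Q) (h01 : s0 ≠ s1) (h02 : s0 ≠ s2) (h12 : s1 ≠ s2) (h31 : s3 ≠ s1)
    (h32 : s3 ≠ s2) (q : Q) (x : ℕ)
    (h : (synCon (Phi s0 s1 s2 s3 M : Rg F Q →ₗ[F] F)).mk'
        (wd (.e :: (List.replicate x .y ++ [.mid (.st q), .f]))) =
      (synCon (Phi s0 s1 s2 s3 M : Rg F Q →ₗ[F] F)).mk' (wd [.e, .mid (.st M.H), .f])) :
    M.Halts q x := by
  classical
  rw [mk_eq_iff] at h
  have h1 := h 1 1
  rw [one_mul, mul_one, one_mul, mul_one, Phi_wd M h01 h02 h12 h31 h32,
    Phi_wd M h01 h02 h12 h31 h32] at h1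
  have h2 : val M (run .start [.e, .mid (.st M.H), .f]) := M.halts_H _
  rw [if_pos h2] at h1
  have h3 : val M (run .start (.e :: (List.replicate x .y ++ [.mid (.st q), .f]))) := by
    by_contra h4
    rw [if_neg h4] at h1
    exact zero_ne_one h1
  rw [run_cons] at h3
  have h4 : (List.replicate x .y ++ [.mid (.st q), .f] : List (Gen Q)) =
      (List.replicate x .y ++ [.mid (.st q)]) ++ [.f] := by simp
  rw [h4, run_append] at h3
  have h5 : run (step Cfg.start Gen.e) (List.replicate x .y ++ [.mid (.st q)]) =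
      (.R (0 + x) (.st q) 0 : Cfg Q) := run_L_y_mid 0 x (.st q)
  rw [h5] at h3
  have h6 : M.Halts q (0 + x + M.B q * 0) := h3
  simpa using h6

end free

end Run7.h162.Test
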