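import Mathlib
import Pool.Agent.Run7.h162.Test

set_option autoImplicit false

/-! Quasi-identities from machines. -/

namespace Run7.h162.Main

open Run7.h162.Machine Run7.h162.Words Run7.h162.Rep Run7.h162.EqPb Run7.h162.Test Function

universe u v

variable {Q : Type} (j : Q → ℕ)

/-- the variable of a letter -/
def num : Gen Q → ℕ
  | .e => 0
  | .y => 1
  | .z => 2
  | .f => 3
  | .mid (.st q) => 4 + 3 * j q
  | .mid (.a q) => 5 + 3 * j q
  | .mid (.r q) => 6 + 3 * j q

variable {j}

theorem num_inj (hj : Injective j) : Injective (num j) := by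
  intro g g' h
  have hm : ∀ t : Mid Q, 4 ≤ num j (.mid t) := by
    rintro (q | q | q) <;> simp only [num] <;> omega
  cases g with
  | e => cases g' with
    | e => rfl
    | y => simp [num] at h
    | z => simp [num] at h
    | f => simp [num] at h
    | mid t =>
      have := hm t
      have h' : 0 = num j (.mid t) := h
      omega
  | y => cases g' with
    | y => rfl
    | e => simp [num] at h
    | z => simp [num] at h
    | f => simp [num] at h
    | mid t =>
      have := hm t
      have h' : 1 = num j (.mid t) := h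
      omega
  | z => cases g' with
    | z => rfl
    | e => simp [num] at h
    | y => simp [num] at h
    | f => simp [num] at h
    | mid t =>
      have := hm t
      have h' : 2 = num j (.mid t) := h
      omega
  | f => cases g' with
    | f => rfl
    | e => simp [num] at h
    | y => simp [num] at h
    | z => simp [num] at h
    | mid t =>
      have := hm t
      have h' : 3 = num j (.mid t) := h
      omega
  | mid t => cases g' with
    | e => have := hm t; have h' : num j (.mid t) = 0 := h; omega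
    | y => have := hm t; have h' : num j (.mid t) = 1 := h; omega
    | z => have := hm t; have h' : num j (.mid t) = 2 := h; omega
    | f => have := hm t; have h' : num j (.mid t) = 3 := h; omega
    | mid t' =>
      rcases t with q | q | q <;> rcases t' with q' | q' | q' <;> simp only [num] at h <;>
        first
        | omega
        | (have h' : j q = j q' := by omega
           rw [hj h'])

/-- the conclusion of the quasi-identity: `e y^(2^k) a f = e h f` -/
def goal (a h k : ℕ) : QPoly := binom (0 :: (List.replicate (2 ^ k) 1 ++ [a, 3])) [0, h, 3]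

theorem goal_computable (a h : ℕ) : Computable (goal a h) := by
  have hpow : Primrec (fun k : ℕ => 2 ^ k) := by
    have h1 : Primrec (Nat.rec (1 : ℕ) (fun _ x => x + x) : ℕ → ℕ) :=
      Primrec.nat_rec₁ 1 (Primrec.nat_add.comp₂ Primrec₂.right Primrec₂.right)
    refine h1.of_eq fun k => ?_
    induction k with
    | zero => rfl
    | succ k ih =>
      show (Nat.rec (1 : ℕ) (fun _ x => x + x) k : ℕ) + Nat.rec (1 : ℕ) (fun _ x => x + x) k = _
      rw [ih, pow_succ, mul_two]
  have hrep : Primrec (fun k : ℕ => List.replicate (2 ^ k) (1 : ℕ)) := by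
    have h1 : Primrec (fun k : ℕ => (List.range (2 ^ k)).map fun _ => (1 : ℕ)) :=
      Primrec.list_map (Primrec.list_range.comp hpow) (Primrec₂.const 1)
    refine h1.of_eq fun k => ?_
    rw [List.map_const', List.length_range]
  have h2 : Primrec (fun k : ℕ => List.replicate (2 ^ k) (1 : ℕ) ++ [a, 3]) :=
    Primrec.list_append.comp hrep (Primrec.const _)
  have h3 : Primrec (goal a h) :=
    Primrec.list_cons.comp ((Primrec.const (1, 0, 0)).pair ((Primrec.const 0).pair h2))
      (Primrec.const [((0, 1, 0), (0, [h, 3]))])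
  exact h3.to_comp

/-- the relations as a finite list of polynomials -/
def IsRels (M : FM Q) (j : Q → ℕ) (R : List QPoly) : Prop :=
  ∀ p, p ∈ R ↔ ∃ s t, Rel M s t ∧ p = binom (s.map (num j)) (t.map (num j))

theorem exists_rels [Finite Q] (M : FM Q) (j : Q → ℕ) : ∃ R, IsRels M j R := by
  classical
  have h := (finite_rel M).image
    (fun p : List (Gen Q) × List (Gen Q) => binom (p.1.map (num j)) (p.2.map (num j)))
  refine ⟨h.toFinset.toList, fun p => ?_⟩
  rw [Finset.mem_toList, Set.Finite.mem_toFinset]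
  constructor
  · rintro ⟨⟨s, t⟩, hp, rfl⟩
    exact ⟨s, t, hp, rfl⟩
  · rintro ⟨s, t, hp, rfl⟩
    exact ⟨⟨s, t⟩, hp, rfl⟩

theorem map_num (s : List (Gen Q)) (h : s ≠ []) : s.map (num j) ≠ [] := by
  simpa using h

theorem goal_eq (q : Q) (M : FM Q) (k : ℕ) : goal (4 + 3 * j q) (4 + 3 * j M.H) k =
    binom ((.e :: (List.replicate (2 ^ k) .y ++ [.mid (.st q), .f]) : List (Gen Q)).map (num j))
      (([.e, .mid (.st M.H), .f] : List (Gen Q)).map (num j)) := by
  simp [goal, num]

/-- If the machine halts then the quasi-identity holds in all algebras. -/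
theorem holds_of_halts (M : FM Q) (R : List QPoly) (hR : IsRels M j R) (q : Q) (k : ℕ)
    (hh : M.Halts q (2 ^ k)) (F : Type u) [Field F] (A : Type v) [NonUnitalRing A] [Module F A]
    [IsScalarTower F A A] [SMulCommClass F A A] :
    Holds F A (R, goal (4 + 3 * j q) (4 + 3 * j M.H) k) := by
  intro x hx
  let U := Unitization F A
  let inr : A →ₙₐ[F] U := Unitization.inrNonUnitalAlgHom F A
  let φ : Gen Q → U := fun g => inr (x (num j g))
  have key : ∀ s : List (Gen Q), s ≠ [] → (s.map φ).prod = inr (nprod ((s.map (num j)).map x)) := by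
    intro s
    induction s with
    | nil => intro h; exact absurd rfl h
    | cons g s ih =>
      intro _
      by_cases hs : s = []
      · subst hs
        simp [nprod, φ]
      · rw [List.map_cons, List.map_cons, List.map_cons, List.prod_cons, ih hs,
          nprod_cons _ (by simpa using hs), map_mul]
  have hφ : ∀ s t, Rel M s t → (s.map φ).prod = (t.map φ).prod := by
    intro s t hst
    have h1 := hx _ ((hR _).2 ⟨s, t, hst, rfl⟩)
    rw [polyVal_binom F x (map_num s hst.ne_nil.1) (map_num t hst.ne_nil.2), sub_eq_zero] at h1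
    rw [key s hst.ne_nil.1, key t hst.ne_nil.2, h1]
  obtain ⟨n, hn⟩ := hh
  have h2 := forward M φ hφ hn
  rw [goal_eq, polyVal_binom F x (map_num _ (List.cons_ne_nil _ _))
    (map_num _ (List.cons_ne_nil _ _)), sub_eq_zero]
  have h3 : Injective inr := Unitization.inr_injective
  apply h3
  rw [← key _ (List.cons_ne_nil _ _), ← key _ (List.cons_ne_nil _ _)]
  simp only [List.map_cons, List.map_append, List.map_replicate, List.map_nil, List.prod_cons,
    List.prod_append, List.prod_replicate, List.prod_nil, mul_one]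
  simp only [mul_assoc] at h2 ⊢
  exact h2

/-- A quasi-identity in an algebra with given values of the letters. -/
theorem eq_of_holds (hj : Injective j) (M : FM Q) (R : List QPoly) (hR : IsRels M j R) (q : Q)
    (k : ℕ) (F : Type u) [Field F] (A : Type v) [NonUnitalRing A] [Module F A]
    (hh : Holds F A (R, goal (4 + 3 * j q) (4 + 3 * j M.H) k)) (ξ : Gen Q → A)
    (hξ : ∀ s t, Rel M s t → nprod (s.map ξ) = nprod (t.map ξ)) :
    nprod ((.e :: (List.replicate (2 ^ k) .y ++ [.mid (.st q), .f]) : List (Gen Q)).map ξ) =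
      nprod (([.e, .mid (.st M.H), .f] : List (Gen Q)).map ξ) := by
  let x : ℕ → A := Function.extend (num j) ξ 0
  have h1 : ∀ s : List (Gen Q), (s.map (num j)).map x = s.map ξ := by
    intro s
    rw [List.map_map]
    refine List.map_congr_left fun g _ => ?_
    exact (num_inj hj).extend_apply ξ 0 g
  have h2 := hh x (by
    intro p hp
    obtain ⟨s, t, hst, rfl⟩ := (hR p).1 hp
    rw [polyVal_binom F x (map_num s hst.ne_nil.1) (map_num t hst.ne_nil.2), sub_eq_zero, h1, h1]
    exact hξ s t hst)
  rw [goal_eq, polyVal_binom F x (map_num _ (List.cons_ne_nil _ _))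
    (map_num _ (List.cons_ne_nil _ _)), sub_eq_zero, h1, h1] at h2
  exact h2

section test

variable {F : Type u} [Field F] {ι : Type} [Fintype ι] [DecidableEq ι] {s0 s1 s2 s3 : ι}

theorem nprod_mk (M : FM Q) (s : List (Gen Q)) (hs : s ≠ []) :
    nprod (s.map fun g => (synCon (Phi s0 s1 s2 s3 M : Rg F Q →ₗ[F] F)).mk' (wd [g])) =
      (synCon (Phi s0 s1 s2 s3 M : Rg F Q →ₗ[F] F)).mk' (wd s) := by
  induction s with
  | nil => exact absurd rfl hs
  | cons g s ih =>
    by_cases h : s = []
    · subst h
      rfl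
    · rw [List.map_cons, nprod_cons _ (by simpa using h), ih h, ← map_mul, ← wd_append]
      rfl

/-- If the quasi-identity holds in the test algebra then the machine halts. -/
theorem halts_of_holds (hj : Injective j) (M : FM Q) (R : List QPoly) (hR : IsRels M j R) (q : Q)
    (k : ℕ) (h01 : s0 ≠ s1) (h02 : s0 ≠ s2) (h12 : s1 ≠ s2) (h31 : s3 ≠ s1) (h32 : s3 ≠ s2)
    (hh : Holds F (synCon (Phi s0 s1 s2 s3 M : Rg F Q →ₗ[F] F)).Quotient
      (R, goal (4 + 3 * j q) (4 + 3 * j M.H) k)) : M.Halts q (2 ^ k) := by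
  have h1 := eq_of_holds hj M R hR q k F _ hh
    (fun g => (synCon (Phi s0 s1 s2 s3 M : Rg F Q →ₗ[F] F)).mk' (wd [g])) (by
      intro s t hst
      rw [nprod_mk M s hst.ne_nil.1, nprod_mk M t hst.ne_nil.2]
      exact Phi_rel M h01 h02 h12 h31 h32 hst)
  rw [nprod_mk M _ (List.cons_ne_nil _ _), nprod_mk M _ (List.cons_ne_nil _ _)] at h1
  exact halts_of_eq M h01 h02 h12 h31 h32 q _ h1

end test

/-- The test algebra belongs to `M(n)`. -/
theorem test_inM {F : Type u} [Field F] [Infinite F] (n : ℕ) (s0 s1 s2 s3 : Fin n) (M : FM Q) :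
    InM F n (synCon (Phi s0 s1 s2 s3 M : Rg F Q →ₗ[F] F)).Quotient := by
  intro p hp x
  obtain ⟨a, ha⟩ : ∃ a : ℕ → Rg F Q, ∀ i,
      (synCon (Phi s0 s1 s2 s3 M : Rg F Q →ₗ[F] F)).mk' (a i) = x i :=
    ⟨fun i => ((synCon (Phi s0 s1 s2 s3 M : Rg F Q →ₗ[F] F)).mk'_surjective (x i)).choose,
      fun i => ((synCon (Phi s0 s1 s2 s3 M : Rg F Q →ₗ[F] F)).mk'_surjective (x i)).choose_spec⟩
  have h1 := polyVal_hom (F := F) (fun r : Rg F Q => (synCon (Phi s0 s1 s2 s3 M)).mk' r)
    (map_zero _) (map_add _) (map_mul _) (fun c r => map_smul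
      ((synCon (Phi s0 s1 s2 s3 M)).mkₐ (α := F)) c r) a p
  have h2 : (fun i => (synCon (Phi s0 s1 s2 s3 M : Rg F Q →ₗ[F] F)).mk' (a i)) = x := funext ha
  rw [h2] at h1
  rw [← h1, ← map_zero (synCon (Phi s0 s1 s2 s3 M : Rg F Q →ₗ[F] F)).mk', mk_eq_iff]
  intro y z
  have h3 : rho s0 s1 s2 s3 (polyVal a p) = (0 : Matrix (Fin n) (Fin n) (Co F Q)) := by
    have h4 := polyVal_hom (F := F) (fun r : Rg F Q => rho s0 s1 s2 s3 r)
      (map_zero _) (map_add _) (map_mul _) (map_smul _) a p
    rw [h4]
    exact identity_matrix n p hp _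
  rw [Phi_apply, Phi_apply, map_mul, map_mul, h3, map_mul, map_mul, map_zero]

/-- **Matrix varieties.** -/
theorem matrix_main : ∃ (R : List QPoly) (u : ℕ → QPoly), Computable u ∧
    ∀ (F : Type u) [Field F] [CharZero F] (n : ℕ), 3 ≤ n →
      ¬ ComputablePred (fun k : ℕ => HoldsInM F n (R, u k)) := by
  obtain ⟨Q, _, M, q0, hM⟩ := exists_machine
  obtain ⟨N, ⟨e⟩⟩ := Finite.exists_equiv_fin Q
  let j : Q → ℕ := fun q => e q
  have hj : Injective j := fun a b h => e.injective (Fin.ext h)
  obtain ⟨R, hR⟩ := exists_rels M j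
  refine ⟨R, goal (4 + 3 * j q0) (4 + 3 * j M.H), goal_computable _ _, ?_⟩
  intro F _ _ n hn hc
  refine hM (hc.of_eq fun k => ⟨fun h => ?_, fun h A _ _ _ _ _ => holds_of_halts M R hR q0 k h F A⟩)
  have : Infinite F := inferInstance
  have h01 : (⟨0, by omega⟩ : Fin n) ≠ ⟨1, by omega⟩ := by simp
  have h02 : (⟨0, by omega⟩ : Fin n) ≠ ⟨2, by omega⟩ := by simp
  have h12 : (⟨1, by omega⟩ : Fin n) ≠ ⟨2, by omega⟩ := by simp
  exact halts_of_holds hj M R hR q0 k h01 h02 h12 h01 h02 (h _ (test_inM n _ _ _ _ M))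

end Run7.h162.Main
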