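import Mathlib
import Pool.Agent.Run7.h162.Main

set_option autoImplicit false

/-! The standard identity of degree at least six. -/

namespace Run7.h162.Std

open Run7.h162.Machine Run7.h162.Words Run7.h162.Rep Run7.h162.EqPb Run7.h162.Test Run7.h162.Main
  Function

universe u v

section mat

variable {C : Type u} [CommRing C]

/-- the positions at which the matrices of positive words are zero -/
def Bad (i j : Fin 4) : Prop := j < i ∨ (i = 0 ∧ j = 0) ∨ (i = 3 ∧ j = 3)

instance : DecidableRel Bad := fun i j => by unfold Bad; infer_instance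

/-- upper triangular matrices whose first and last diagonal entries are zero -/
def IsT (X : Matrix (Fin 4) (Fin 4) C) : Prop := ∀ i j, Bad i j → X i j = 0

theorem bad_mul : ∀ i j k : Fin 4, Bad i j → Bad i k ∨ Bad k j := by decide

theorem IsT.mul {X Y : Matrix (Fin 4) (Fin 4) C} (hX : IsT X) (hY : IsT Y) : IsT (X * Y) := by
  intro i j h
  rw [Matrix.mul_apply]
  refine Finset.sum_eq_zero fun k _ => ?_
  rcases bad_mul i j k h with h1 | h1
  · rw [hX i k h1, zero_mul]
  · rw [hY k j h1, mul_zero]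

theorem IsT.add {X Y : Matrix (Fin 4) (Fin 4) C} (hX : IsT X) (hY : IsT Y) : IsT (X + Y) := by
  intro i j h
  rw [Matrix.add_apply, hX i j h, hY i j h, add_zero]

theorem isT_zero : IsT (0 : Matrix (Fin 4) (Fin 4) C) := fun _ _ _ => rfl

/-- the edge is not a loop -/
def nl (p : Fin 4 × Fin 4) : Bool := decide (p.1 ≠ p.2)

theorem path_aux (l : List (Fin 4 × Fin 4)) (hl : ∀ p ∈ l, ¬ Bad p.1 p.2) : ∀ i j : Fin 4,
    (l.map fun p => (Matrix.single p.1 p.2 1 : Matrix (Fin 4) (Fin 4) C)).prod i j ≠ 0 →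
    (i : ℕ) + (l.filter nl).length ≤ j := by
  induction l with
  | nil =>
    intro i j h
    simp only [List.map_nil, List.prod_nil, Matrix.one_apply] at h
    have : i = j := by
      by_contra h2
      exact h (if_neg h2)
    simp [this]
  | cons p l ih =>
    intro i j h
    rw [List.map_cons, List.prod_cons, Matrix.mul_apply] at h
    obtain ⟨k, _, hk⟩ := Finset.exists_ne_zero_of_sum_ne_zero h
    have h1 : p.1 = i ∧ p.2 = k := by
      by_contra h2
      apply hk
      have h3 : (Matrix.single p.1 p.2 1 : Matrix (Fin 4) (Fin 4) C) i k = 0 := by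
        rw [Matrix.single_apply, if_neg h2]
      exact (congrArg (· * _) h3).trans (zero_mul _)
    have h2 := right_ne_zero_of_mul hk
    have h3 := ih (fun q hq => hl q (List.mem_cons_of_mem _ hq)) k j h2
    have h4 := hl p List.mem_cons_self
    have h5 : p.1 ≤ p.2 := by
      by_contra h6
      exact h4 (Or.inl (not_le.1 h6))
    rw [List.filter_cons]
    have h7 : (p.1 : ℕ) ≤ p.2 := h5
    rw [h1.1, h1.2] at h7
    by_cases h8 : p.1 = p.2
    · have : nl p = false := by simp [nl, h8]
      rw [this]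
      simp only [Bool.false_eq_true, if_false]
      omega
    · have : nl p = true := by simp [nl, h8]
      rw [this, if_pos rfl, List.length_cons]
      have h9 : (p.1 : ℕ) ≠ p.2 := fun h => h8 (Fin.ext h)
      rw [h1.1, h1.2] at h9
      omega

theorem prod_single_zero (l : List (Fin 4 × Fin 4)) (hl : ∀ p ∈ l, ¬ Bad p.1 p.2) (hn : l.Nodup)
    (h6 : 6 ≤ l.length) :
    (l.map fun p => (Matrix.single p.1 p.2 1 : Matrix (Fin 4) (Fin 4) C)).prod = 0 := by
  ext i j
  by_contra h
  have h1 := path_aux l hl i j h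
  have h2 : (l.filter fun p => !nl p).length ≤ 2 := by
    have h3 : (l.filter fun p => !nl p).toFinset ⊆ {(1, 1), (2, 2)} := by
      intro p hp
      rw [List.mem_toFinset, List.mem_filter] at hp
      obtain ⟨h4, h5⟩ := hp
      have h6 := hl p h4
      obtain ⟨a, b⟩ := p
      clear h4
      revert h5 h6
      revert a b
      decide
    have h4 := Finset.card_le_card h3
    rw [List.toFinset_card_of_nodup (hn.filter _)] at h4
    exact h4.trans (by decide)
  have h3 : (l.filter nl).length + (l.filter fun p => !nl p).length = l.length := by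
    have := List.length_eq_length_filter_add (l := l) nl
    omega
  have := j.2
  omega

/-- the standard polynomial as an alternating map -/
noncomputable def stdMap (C : Type u) [CommRing C] (n : ℕ) (B : Type v) [Ring B] [Algebra C B] :
    B [⋀^Fin n]→ₗ[C] B :=
  MultilinearMap.alternatization (MultilinearMap.mkPiAlgebraFin C n B)

theorem stdMap_apply (n : ℕ) (B : Type v) [Ring B] [Algebra C B] (x : Fin n → B) :
    stdMap C n B x =
      ∑ σ : Equiv.Perm (Fin n), (Equiv.Perm.sign σ : ℤ) • (List.ofFn fun i => x (σ i)).prod := by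
  unfold stdMap
  rw [MultilinearMap.alternatization_apply]
  refine Finset.sum_congr rfl fun σ _ => ?_
  rw [MultilinearMap.domDomCongr_apply, MultilinearMap.mkPiAlgebraFin_apply]
  rfl

theorem std_zero (n : ℕ) (hn : 6 ≤ n) (x : Fin n → Matrix (Fin 4) (Fin 4) C) (hx : ∀ i, IsT (x i)) :
    stdMap C n (Matrix (Fin 4) (Fin 4) C) x = 0 := by
  classical
  have h1 : x = fun i => ∑ p : Fin 4 × Fin 4,
      (x i p.1 p.2) • (Matrix.single p.1 p.2 1 : Matrix (Fin 4) (Fin 4) C) := by
    funext i
    conv_lhs => rw [Matrix.matrix_eq_sum_single (x i)]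
    rw [Fintype.sum_prod_type]
    simp [Matrix.smul_single]
  rw [h1]
  have h2 := MultilinearMap.map_sum (stdMap C n (Matrix (Fin 4) (Fin 4) C)).toMultilinearMap
    (fun i (p : Fin 4 × Fin 4) =>
      (x i p.1 p.2) • (Matrix.single p.1 p.2 1 : Matrix (Fin 4) (Fin 4) C))
  refine h2.trans (Finset.sum_eq_zero fun r _ => ?_)
  rw [MultilinearMap.map_smul_univ]
  by_cases hr : ∃ i, Bad (r i).1 (r i).2
  · obtain ⟨i, hi⟩ := hr
    rw [Finset.prod_eq_zero (Finset.mem_univ i) (hx i _ _ hi), zero_smul]
  · push Not at hr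
    have h3 : stdMap C n (Matrix (Fin 4) (Fin 4) C)
        (fun i => (Matrix.single (r i).1 (r i).2 1 : Matrix (Fin 4) (Fin 4) C)) = 0 := by
      by_cases hinj : Injective r
      · rw [stdMap_apply]
        refine Finset.sum_eq_zero fun σ _ => ?_
        have h4 := prod_single_zero (C := C) (List.ofFn fun i => r (σ i))
          (by
            intro p hp
            rw [List.mem_ofFn] at hp
            obtain ⟨i, rfl⟩ := hp
            exact hr _)
          (List.nodup_ofFn.2 (hinj.comp σ.injective))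
          (by rw [List.length_ofFn]; exact hn)
        rw [List.map_ofFn] at h4
        have h5 : (List.ofFn fun i => (Matrix.single (r (σ i)).1 (r (σ i)).2 1 :
            Matrix (Fin 4) (Fin 4) C)).prod = 0 := h4
        rw [h5, smul_zero]
      · rw [Injective] at hinj
        push Not at hinj
        obtain ⟨a, b, hab, hne⟩ := hinj
        exact AlternatingMap.map_eq_zero_of_eq _ _ (by simp only [hab]) hne
    exact smul_eq_zero_of_right _ h3

end mat

section test

variable {F : Type u} [Field F] {Q : Type}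

/-- the functional of the triangular representation -/
noncomputable abbrev Ph (F : Type u) [Field F] (M : FM Q) : Rg F Q →ₗ[F] F :=
  Phi (0 : Fin 4) 1 2 3 M

/-- the triangular representation -/
noncomputable abbrev rh : Rg F Q →ₐ[F] Matrix (Fin 4) (Fin 4) (Co F Q) := rho (0 : Fin 4) 1 2 3

/-- the test algebra without unit -/
noncomputable def A0 (F : Type u) [Field F] (M : FM Q) :
    NonUnitalSubalgebra F (synCon (Ph F M)).Quotient where
  carrier := {q | ∃ a : Rg F Q, IsT (rh a) ∧ (synCon (Ph F M)).mk' a = q}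
  zero_mem' := ⟨0, by rw [map_zero]; exact isT_zero, map_zero _⟩
  add_mem' := by
    rintro _ _ ⟨a, ha, rfl⟩ ⟨b, hb, rfl⟩
    exact ⟨a + b, by rw [map_add]; exact ha.add hb, map_add _ _ _⟩
  mul_mem' := by
    rintro _ _ ⟨a, ha, rfl⟩ ⟨b, hb, rfl⟩
    exact ⟨a * b, by rw [map_mul]; exact ha.mul hb, map_mul _ _ _⟩
  smul_mem' := by
    rintro c _ ⟨a, ha, rfl⟩
    refine ⟨c • a, ?_, map_smul ((synCon (Ph F M)).mkₐ (α := F)) c a⟩
    intro i j h
    rw [map_smul, Matrix.smul_apply, ha i j h, smul_zero]

theorem isT_letter (g : Gen Q) : IsT (letter (F := F) (0 : Fin 4) 1 2 3 g) := by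
  have h : ∀ (a b : Fin 4) (c : Co F Q), ¬ Bad a b → IsT (Matrix.single a b c) := by
    intro a b c hab i j hij
    rw [Matrix.single_apply, if_neg]
    rintro ⟨rfl, rfl⟩
    exact hab hij
  cases g <;> exact h _ _ _ (by decide)

theorem coe_nprod (M : FM Q) (l : List (A0 F M)) :
    ((nprod l : A0 F M) : (synCon (Ph F M)).Quotient) = nprod (l.map Subtype.val) :=
  nprod_hom (fun a : A0 F M => (a : (synCon (Ph F M)).Quotient)) rfl (fun _ _ => rfl) l

theorem halts_of_holds0 {j : Q → ℕ} (hj : Injective j) (M : FM Q) (R : List QPoly)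
    (hR : IsRels M j R) (q : Q) (k : ℕ)
    (hh : Holds F (A0 F M) (R, goal (4 + 3 * j q) (4 + 3 * j M.H) k)) : M.Halts q (2 ^ k) := by
  let ξ : Gen Q → A0 F M := fun g => ⟨(synCon (Ph F M)).mk' (wd [g]), wd [g], by
    rw [rho_wd]
    have : wmat (0 : Fin 4) 1 2 3 [g] = letter (F := F) (0 : Fin 4) 1 2 3 g := by simp [wmat]
    rw [this]
    exact isT_letter g, rfl⟩
  have hξ : ∀ s : List (Gen Q), s ≠ [] →
      ((nprod (s.map ξ) : A0 F M) : (synCon (Ph F M)).Quotient) = (synCon (Ph F M)).mk' (wd s) := by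
    intro s hs
    rw [coe_nprod, List.map_map]
    exact nprod_mk M s hs
  have h01 : (0 : Fin 4) ≠ 1 := by decide
  have h02 : (0 : Fin 4) ≠ 2 := by decide
  have h12 : (1 : Fin 4) ≠ 2 := by decide
  have h31 : (3 : Fin 4) ≠ 1 := by decide
  have h32 : (3 : Fin 4) ≠ 2 := by decide
  have h1 := eq_of_holds hj M R hR q k F _ hh ξ (by
    intro s t hst
    apply Subtype.ext
    rw [hξ s hst.ne_nil.1, hξ t hst.ne_nil.2]
    exact Phi_rel M h01 h02 h12 h31 h32 hst)
  have h2 := congrArg Subtype.val h1
  rw [hξ _ (List.cons_ne_nil _ _), hξ _ (List.cons_ne_nil _ _)] at h2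
  exact halts_of_eq M h01 h02 h12 h31 h32 q _ h2

theorem test_inS (n : ℕ) (hn : 6 ≤ n) (M : FM Q) : InS n (A0 F M) := by
  intro x
  have hx : ∀ i, ∃ a : Rg F Q, IsT (rh a) ∧ (synCon (Ph F M)).mk' a = (x i).1 := fun i => (x i).2
  choose a ha hax using hx
  apply Subtype.ext
  let f : A0 F M →+ (synCon (Ph F M)).Quotient :=
    { toFun := Subtype.val, map_zero' := rfl, map_add' := fun _ _ => rfl }
  have h1 : ∀ σ : Equiv.Perm (Fin n), f (nprod (List.ofFn fun i => x (σ i))) =
      (synCon (Ph F M)).mk' (List.ofFn fun i => a (σ i)).prod := by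
    intro σ
    show ((nprod (List.ofFn fun i => x (σ i)) : A0 F M) : (synCon (Ph F M)).Quotient) = _
    rw [coe_nprod, List.map_ofFn, nprod_eq, map_list_prod, List.map_ofFn]
    · congr 2
      funext i
      exact (hax (σ i)).symm
    · intro h
      have := congrArg List.length h
      rw [List.length_ofFn] at this
      simp at this
      omega
  show f (∑ σ : Equiv.Perm (Fin n), (Equiv.Perm.sign σ : ℤ) • nprod (List.ofFn fun i => x (σ i))) = 0
  rw [map_sum]
  simp only [map_zsmul, h1]
  rw [← map_zero (synCon (Ph F M)).mk']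
  have h2 : ∑ σ : Equiv.Perm (Fin n), (Equiv.Perm.sign σ : ℤ) •
      (synCon (Ph F M)).mk' (List.ofFn fun i => a (σ i)).prod =
      (synCon (Ph F M)).mk' (∑ σ : Equiv.Perm (Fin n), (Equiv.Perm.sign σ : ℤ) •
        (List.ofFn fun i => a (σ i)).prod) := by
    rw [map_sum]
    simp only [map_zsmul]
  rw [h2, mk_eq_iff]
  intro y z
  have h3 : rh (∑ σ : Equiv.Perm (Fin n), (Equiv.Perm.sign σ : ℤ) •
      (List.ofFn fun i => a (σ i)).prod) = (0 : Matrix (Fin 4) (Fin 4) (Co F Q)) := by
    have h4 := std_zero n hn (fun i => rh (a i)) ha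
    rw [stdMap_apply] at h4
    rw [map_sum, ← h4]
    refine Finset.sum_congr rfl fun σ _ => ?_
    rw [map_zsmul, map_list_prod, List.map_ofFn]
    rfl
  rw [Phi_apply, Phi_apply, map_mul, map_mul, h3, map_mul, map_mul, map_zero]

end test

/-- **Varieties of algebras with the standard identity.** -/
theorem std_main : ∃ (R : List QPoly) (u : ℕ → QPoly), Computable u ∧
    ∀ (F : Type u) [Field F] (n : ℕ), 6 ≤ n →
      ¬ ComputablePred (fun k : ℕ => HoldsInS F n (R, u k)) := by
  obtain ⟨Q, _, M, q0, hM⟩ := exists_machine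
  obtain ⟨N, ⟨e⟩⟩ := Finite.exists_equiv_fin Q
  let j : Q → ℕ := fun q => e q
  have hj : Injective j := fun a b h => e.injective (Fin.ext h)
  obtain ⟨R, hR⟩ := exists_rels M j
  refine ⟨R, goal (4 + 3 * j q0) (4 + 3 * j M.H), goal_computable _ _, ?_⟩
  intro F _ n hn hc
  refine hM (hc.of_eq fun k => ⟨fun h => ?_, fun h A _ _ _ _ _ => holds_of_halts M R hR q0 k h F A⟩)
  exact halts_of_holds0 hj M R hR q0 k (h _ (test_inS n hn M))

end Run7.h162.Std
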